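import Mathlib
import Pool.Agent.H231R3.TI.Defs
import Pool.Agent.H231R3.TI.Final

set_option autoImplicit false

namespace Pool.Agent.Results.MP_b9f29c_an.NotLocallyTypeI

open Pool.Agent.H231R3.TI

/-- Negative answer: there is a unital C*-algebra that is separable, nuclear and stably finite but
is not locally approximable by type I C*-algebras. (The example is the algebra of continuous
functions on `[0,1]` with values in the Cuntz algebra with two generators and a scalar value
at `0`.) -/
theorem result :
    ∃ (A : Type) (_ : CStarAlgebra A), TopologicalSpace.SeparableSpace A ∧ IsNuclear A ∧
      IsStablyFinite A ∧ ¬ LocallyTypeI A :=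
  counterexample

end Pool.Agent.Results.MP_b9f29c_an.NotLocallyTypeI
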